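import Pool.Agent.T9h8.LG.R4a

/-!
# (R4) the estimate of a shell at the exponent 4 (helper8)
-/

set_option autoImplicit false

namespace Pool.Agent.T9h8.LG

open MeasureTheory Real Pool.Agent.T9h44.LG Pool.Agent.T9h44.LS4 Pool.Agent.T9h31.LG
open scoped ENNReal ContDiff

variable {n : ℕ}

/-- the substitution `w = t² - y²/t²` -/
lemma sub_w (f : ℝ → ℝ≥0∞) (y : ℝ) :
    ∫⁻ t in Set.Icc (1 : ℝ) 2, f (t ^ 2 - y ^ 2 / t ^ 2) ≤ ∫⁻ w, f w := by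
  have hd : ∀ t ∈ Set.Icc (1 : ℝ) 2, HasDerivWithinAt (fun t : ℝ => t ^ 2 - y ^ 2 / t ^ 2)
      (2 * t + 2 * y ^ 2 / t ^ 3) (Set.Icc 1 2) t := by
    intro t ht
    have ht0 : t ≠ 0 := by
      have := ht.1
      intro h
      rw [h] at this
      norm_num at this
    have h1 : HasDerivAt (fun t : ℝ => t ^ 2) (2 * t) t := by
      simpa using hasDerivAt_pow 2 t
    have h2 : HasDerivAt (fun t : ℝ => y ^ 2 / t ^ 2) (-(2 * y ^ 2 / t ^ 3)) t := by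
      have h3 := (hasDerivAt_const t (y ^ 2)).div h1 (pow_ne_zero 2 ht0)
      refine h3.congr_deriv ?_
      field_simp
      ring
    refine (h1.sub h2).hasDerivWithinAt.congr_deriv ?_
    ring
  have hinj : Set.InjOn (fun t : ℝ => t ^ 2 - y ^ 2 / t ^ 2) (Set.Icc 1 2) := by
    have hm : ∀ s ∈ Set.Icc (1 : ℝ) 2, ∀ t ∈ Set.Icc (1 : ℝ) 2, s < t →
        s ^ 2 - y ^ 2 / s ^ 2 < t ^ 2 - y ^ 2 / t ^ 2 := by
      intro s hs t ht hst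
      have h1 : (0 : ℝ) < s := lt_of_lt_of_le one_pos hs.1
      have h2 : s ^ 2 < t ^ 2 := pow_lt_pow_left₀ hst h1.le (by norm_num)
      have h3 : y ^ 2 / t ^ 2 ≤ y ^ 2 / s ^ 2 :=
        div_le_div_of_nonneg_left (sq_nonneg y) (by positivity) h2.le
      linarith
    intro s hs t ht hst
    simp only at hst
    rcases lt_trichotomy s t with h | h | h
    · exact absurd hst (hm s hs t ht h).ne
    · exact h
    · exact absurd hst (hm t ht s hs h).ne'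
  have h := lintegral_image_eq_lintegral_abs_deriv_mul measurableSet_Icc hd hinj f
  calc ∫⁻ t in Set.Icc (1 : ℝ) 2, f (t ^ 2 - y ^ 2 / t ^ 2)
      ≤ ∫⁻ t in Set.Icc (1 : ℝ) 2, ENNReal.ofReal |2 * t + 2 * y ^ 2 / t ^ 3| *
          f (t ^ 2 - y ^ 2 / t ^ 2) := by
        refine setLIntegral_mono' measurableSet_Icc fun t ht => ?_
        refine le_mul_of_one_le_left zero_le ?_
        rw [ENNReal.one_le_ofReal]
        have h1 := ht.1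
        have h2 : 0 ≤ 2 * y ^ 2 / t ^ 3 := by positivity
        rw [abs_of_nonneg (by linarith)]
        linarith
    _ = ∫⁻ w in (fun t : ℝ => t ^ 2 - y ^ 2 / t ^ 2) '' Set.Icc 1 2, f w := h.symm
    _ ≤ ∫⁻ w, f w := setLIntegral_le_lintegral _ _

/-- the pieces of the function -/
lemma integrable_pc {a : (Fin n → ℝ) → ℂ} (h1 : ContDiff ℝ ∞ a)
    (h : ∀ η, a η ≠ 0 → ∀ i, |η i| ≤ 4)
    {R : ℝ} (hR : 0 < R) {F : (Fin n → ℝ) → ℂ} (hF : Integrable F) (c : ℂ) :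
    Integrable (fun ξ => c * (a (R⁻¹ • ξ) * Fh F ξ)) := by
  refine Continuous.integrable_of_hasCompactSupport (continuous_const.mul
    ((h1.continuous.comp (by fun_prop)).mul (continuous_Fh hF))) ?_
  refine HasCompactSupport.of_support_subset_isCompact
    (K := Set.pi Set.univ fun _ => Set.Icc (-(4 * R) : ℝ) (4 * R))
    (isCompact_univ_pi fun _ => isCompact_Icc) ?_
  intro ξ hξ i _
  exact abs_le.1 ((niceV_of h1 h hR hF c).2 ξ hξ i)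

lemma integrable_conv (hn : 1 ≤ n) (M : ℕ) {y : ℝ} (hy : 0 < y) (w : ℝ) {g : Fin n → ℝ}
    (hg : g ∈ box n) {G : (Fin n → ℝ) → ℂ} (hG : Integrable G) (x : Fin n → ℝ) :
    Integrable (fun u => KM M n y w g (x - u) * ExV G u) := by
  have h1 : Integrable (KM M n y w g) :=
    Pool.Agent.T9h41.LG.integrable_KM hn M hy w fun i => lt_of_lt_of_le one_pos (hg i).1
  have h2 := h1.comp_sub_left x
  refine (h2.norm.mul_const (∫ v, ‖G v‖)).mono'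
    (h2.aestronglyMeasurable.mul (continuous_ExV hG).aestronglyMeasurable) ?_
  refine Filter.Eventually.of_forall fun u => ?_
  rw [norm_mul]
  exact mul_le_mul_of_nonneg_left (norm_ExV_le G u) (norm_nonneg _)

/-- the convolution of a piece -/
noncomputable def W (M : ℕ) (y : ℝ) (G : (Fin n → ℝ) → ℂ) (g : Fin n → ℝ) (t : ℝ)
    (x : Fin n → ℝ) : ℝ≥0∞ :=
  ‖∫ u : Fin n → ℝ, KM M n y (t ^ 2 - y ^ 2 / t ^ 2) g (x - u) * ExV G u‖ₑ ^ 4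

lemma meas_W (M : ℕ) (y : ℝ) {G : (Fin n → ℝ) → ℂ} (hG : Integrable G) :
    Measurable fun p : ((Fin n → ℝ) × ℝ) × (Fin n → ℝ) => W M y G p.1.1 p.1.2 p.2 := by
  unfold W
  have h1 : Measurable fun p : ((Fin n → ℝ) × ℝ) × (Fin n → ℝ) =>
      ∫ u, KM M n y (p.1.2 ^ 2 - y ^ 2 / p.1.2 ^ 2) p.1.1 (p.2 - u) * ExV G u :=
    Measurable.comp (g := fun p : (Fin n → ℝ) × ℝ × (Fin n → ℝ) =>
        ∫ u, KM M n y p.2.1 p.1 (p.2.2 - u) * ExV G u)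
      (f := fun p : ((Fin n → ℝ) × ℝ) × (Fin n → ℝ) =>
        (p.1.1, p.1.2 ^ 2 - y ^ 2 / p.1.2 ^ 2, p.2))
      (meas_conv M y (continuous_ExV hG).measurable) (by fun_prop)
  exact h1.enorm.pow_const 4

lemma meas_box : MeasurableSet (box n) := by
  have : box n = Set.pi Set.univ fun _ => Set.Icc (1 : ℝ) 2 := by
    ext g
    simp only [box, Set.mem_ofPred_eq, Set.mem_pi, Set.mem_univ, forall_true_left]
  rw [this]
  exact MeasurableSet.univ_pi fun _ => measurableSet_Icc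

lemma pow4_sum (f : Fin n → ℝ≥0∞) : (∑ j, f j) ^ 4 ≤ (n : ℝ≥0∞) ^ 3 * ∑ j, f j ^ 4 := by
  have h1 := ENNReal.rpow_sum_le_const_mul_sum_rpow (s := Finset.univ) (f := f) (p := 4)
    (by norm_num)
  rw [Finset.card_univ, Fintype.card_fin, show (4 : ℝ) - 1 = (3 : ℝ) by norm_num] at h1
  simp only [ENNReal.rpow_ofNat] at h1
  exact h1

lemma sum_gen {ι α β γ : Type} [Fintype ι] [MeasurableSpace α] [MeasurableSpace β]
    [MeasurableSpace γ] (μ : Measure α) (ν : Measure β) (ρ : Measure γ) [SFinite ν] [SFinite ρ]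
    (f : ι → α → β → γ → ℝ≥0∞)
    (hf : ∀ j, Measurable fun p : (α × β) × γ => f j p.1.1 p.1.2 p.2) (c : ℝ≥0∞) (hc : c ≠ ⊤) :
    ∫⁻ g, ∫⁻ t, ∫⁻ x, c * ∑ j, f j g t x ∂ρ ∂ν ∂μ =
      c * ∑ j, ∫⁻ g, ∫⁻ t, ∫⁻ x, f j g t x ∂ρ ∂ν ∂μ := by
  have hWx : ∀ j g t, Measurable fun x => f j g t x := fun j g t =>
    (hf j).comp (measurable_prodMk_left (x := (g, t)))
  have hWt : ∀ j, Measurable fun p : α × β => ∫⁻ x, f j p.1 p.2 x ∂ρ := fun j =>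
    (hf j).lintegral_prod_right'
  have hWt' : ∀ j g, Measurable fun t => ∫⁻ x, f j g t x ∂ρ := fun j g =>
    (hWt j).comp (measurable_prodMk_left (x := g))
  have hWg : ∀ j, Measurable fun g => ∫⁻ t, ∫⁻ x, f j g t x ∂ρ ∂ν :=
    fun j => (hWt j).lintegral_prod_right'
  have e1 : ∀ g t, ∫⁻ x, c * ∑ j, f j g t x ∂ρ = c * ∑ j, ∫⁻ x, f j g t x ∂ρ := by
    intro g t
    rw [lintegral_const_mul' _ _ hc, lintegral_finsetSum _ fun j _ => hWx j g t]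
  have e2 : ∀ g, ∫⁻ t, c * ∑ j, ∫⁻ x, f j g t x ∂ρ ∂ν = c * ∑ j, ∫⁻ t, ∫⁻ x, f j g t x ∂ρ ∂ν := by
    intro g
    rw [lintegral_const_mul' _ _ hc, lintegral_finsetSum _ fun j _ => hWt' j g]
  simp only [e1, e2]
  rw [lintegral_const_mul' _ _ hc, lintegral_finsetSum _ fun j _ => hWg j]

lemma sum_W (M : ℕ) (y : ℝ) {G : Fin n → (Fin n → ℝ) → ℂ} (hG : ∀ j, Integrable (G j)) :
    ∫⁻ g in box n, ∫⁻ t in Set.Icc (1 : ℝ) 2, ∫⁻ x : Fin n → ℝ,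
      (n : ℝ≥0∞) ^ 3 * ∑ j, W M y (G j) g t x =
    (n : ℝ≥0∞) ^ 3 * ∑ j, ∫⁻ g in box n, ∫⁻ t in Set.Icc (1 : ℝ) 2, ∫⁻ x : Fin n → ℝ,
      W M y (G j) g t x :=
  sum_gen _ _ _ (fun j => W M y (G j)) (fun j => meas_W M y (hG j)) _
    (ENNReal.pow_ne_top (ENNReal.natCast_ne_top n))

/-- the sum of the pieces -/
lemma asm (hn : 1 ≤ n) (M : ℕ) {y : ℝ} (hy : 0 < y) {G : Fin n → (Fin n → ℝ) → ℂ}
    (hG : ∀ j, Integrable (G j)) (P : (Fin n → ℝ) → ℂ) (hP : ∀ u, P u = ∑ j, ExV (G j) u) :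
    ∫⁻ g in box n, ∫⁻ t in Set.Icc (1 : ℝ) 2, ∫⁻ x : Fin n → ℝ,
        ‖∫ u : Fin n → ℝ, KM M n y (t ^ 2 - y ^ 2 / t ^ 2) g (x - u) * P u‖ₑ ^ 4 ≤
      (n : ℝ≥0∞) ^ 3 * ∑ j, ∫⁻ g in box n, ∫⁻ w : ℝ, ∫⁻ x : Fin n → ℝ,
        ‖∫ u : Fin n → ℝ, KM M n y w g (x - u) * ExV (G j) u‖ₑ ^ 4 := by
  have hV : ∀ g ∈ box n, ∀ (w : ℝ) (x : Fin n → ℝ),
      ∫ u : Fin n → ℝ, KM M n y w g (x - u) * P u =
        ∑ j, ∫ u : Fin n → ℝ, KM M n y w g (x - u) * ExV (G j) u := by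
    intro g hg w x
    rw [← integral_finsetSum _ fun j _ => integrable_conv hn M hy w hg (hG j) x]
    refine integral_congr_ae (Filter.Eventually.of_forall fun u => ?_)
    simp only
    rw [hP, Finset.mul_sum]
  calc ∫⁻ g in box n, ∫⁻ t in Set.Icc (1 : ℝ) 2, ∫⁻ x : Fin n → ℝ,
        ‖∫ u : Fin n → ℝ, KM M n y (t ^ 2 - y ^ 2 / t ^ 2) g (x - u) * P u‖ₑ ^ 4
      ≤ ∫⁻ g in box n, ∫⁻ t in Set.Icc (1 : ℝ) 2, ∫⁻ x : Fin n → ℝ,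
          (n : ℝ≥0∞) ^ 3 * ∑ j, W M y (G j) g t x := by
        refine setLIntegral_mono' meas_box fun g hg => ?_
        refine lintegral_mono fun t => lintegral_mono fun x => ?_
        rw [hV g hg]
        exact (pow_le_pow_left₀ zero_le (enorm_sum_le _ _) 4).trans (pow4_sum _)
    _ = (n : ℝ≥0∞) ^ 3 * ∑ j, ∫⁻ g in box n, ∫⁻ t in Set.Icc (1 : ℝ) 2, ∫⁻ x : Fin n → ℝ,
          W M y (G j) g t x := sum_W M y hG
    _ ≤ _ := by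
        refine mul_le_mul' le_rfl (Finset.sum_le_sum fun j _ => ?_)
        refine lintegral_mono fun g => ?_
        exact sub_w (fun w => ∫⁻ x : Fin n → ℝ,
          ‖∫ u : Fin n → ℝ, KM M n y w g (x - u) * ExV (G j) u‖ₑ ^ 4) y

/-- the piece `G_j` -/
noncomputable def Gj (R : ℝ) (F : (Fin n → ℝ) → ℂ) (j : Fin n) (ξ : Fin n → ℝ) : ℂ :=
  1 * (aj j (R⁻¹ • ξ) * Fh F ξ)

/-- the function `H_j` -/
noncomputable def Hj (R : ℝ) (F : (Fin n → ℝ) → ℂ) (j : Fin n) (ξ : Fin n → ℝ) : ℂ :=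
  ((R⁻¹ : ℝ) : ℂ) * (bj j (R⁻¹ • ξ) * Fh F ξ)

lemma Gj_Hj (R : ℝ) (F : (Fin n → ℝ) → ℂ) (j : Fin n) (ξ : Fin n → ℝ) :
    Gj R F j ξ = 2 * π * Complex.I * ξ j * Hj R F j ξ := by
  unfold Gj Hj
  rw [aj_bj]
  simp only [Pi.smul_apply, smul_eq_mul]
  push_cast
  ring

lemma ExV_Hj {R : ℝ} (hR : 0 < R) {F : (Fin n → ℝ) → ℂ} (hFm : Measurable F) (hF : Integrable F)
    (j : Fin n) : ENNReal.ofReal (R ^ 4) * ∫⁻ x, ‖ExV (Hj R F j) x‖ₑ ^ 4 ≤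
      (∫⁻ x, ‖ExV (bj j) x‖ₑ) ^ 4 * ∫⁻ u, ‖F u‖ₑ ^ 4 := by
  have hy : 0 < R⁻¹ := inv_pos.2 hR
  have h1 : ∀ x, ‖ExV (Hj R F j) x‖ₑ ^ 4 = ENNReal.ofReal (R⁻¹ ^ 4) *
      ‖ExV (fun ξ => bj j (R⁻¹ • ξ) * Fh F ξ) x‖ₑ ^ 4 := by
    intro x
    have h2 : ExV (Hj R F j) x =
        ((R⁻¹ : ℝ) : ℂ) * ExV (fun ξ => bj j (R⁻¹ • ξ) * Fh F ξ) x := by
      unfold ExV
      rw [← integral_const_mul]
      refine integral_congr_ae (Filter.Eventually.of_forall fun ξ => ?_)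
      simp only [Hj]
      ring
    rw [h2, enorm_mul, mul_pow]
    congr 1
    rw [← ofReal_norm, Complex.norm_real, Real.norm_of_nonneg hy.le,
      ENNReal.ofReal_pow hy.le]
  simp only [h1]
  rw [lintegral_const_mul' _ _ ENNReal.ofReal_ne_top, ← mul_assoc,
    ← ENNReal.ofReal_mul (by positivity), ← mul_pow, mul_inv_cancel₀ hR.ne', one_pow,
    ENNReal.ofReal_one, one_mul]
  exact mult4 (contDiff_bj j) (compact_bj j) hR hFm hF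

lemma ExV_Gj {R : ℝ} (hR : 0 < R) {F : (Fin n → ℝ) → ℂ} (hFm : Measurable F) (hF : Integrable F)
    (j : Fin n) : ∫⁻ x, ‖ExV (Gj R F j) x‖ₑ ^ 4 ≤
      (∫⁻ x, ‖ExV (aj j) x‖ₑ) ^ 4 * ∫⁻ u, ‖F u‖ₑ ^ 4 := by
  have h : Gj R F j = fun ξ => aj j (R⁻¹ • ξ) * Fh F ξ := by
    ext ξ
    unfold Gj
    rw [one_mul]
  rw [h]
  exact mult4 (contDiff_aj j) (compact_aj j) hR hFm hF

lemma Psi_eq {R : ℝ} {F : (Fin n → ℝ) → ℂ} (hG : ∀ j, Integrable (Gj R F j))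
    (u : Fin n → ℝ) : Psi R F u = ∑ j, ExV (Gj R F j) u := by
  unfold Psi
  have h1 : (fun ξ : Fin n → ℝ => ((shl (R⁻¹ • ξ) : ℝ) : ℂ) *
      ∫ v : Fin n → ℝ, ee (-∑ i, v i * ξ i) * F v) = fun ξ => ∑ j, Gj R F j ξ := by
    ext ξ
    rw [← sum_aj, Finset.sum_mul]
    refine Finset.sum_congr rfl fun j _ => ?_
    unfold Gj
    rw [one_mul]
    rfl
  rw [h1]
  unfold ExV
  rw [← integral_finsetSum]
  · refine integral_congr_ae (Filter.Eventually.of_forall fun ξ => ?_)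
    simp only [Finset.mul_sum]
  · intro j _
    refine ((hG j).norm).mono' ?_ ?_
    · exact (continuous_ee.comp (by fun_prop)).aestronglyMeasurable.mul
        (hG j).aestronglyMeasurable
    · refine Filter.Eventually.of_forall fun ξ => ?_
      rw [norm_mul, norm_ee, one_mul]

/-- the constant -/
noncomputable def DD (n : ℕ) : ℝ≥0∞ :=
  ∑ j : Fin n, ((∫⁻ x, ‖ExV (aj j) x‖ₑ) ^ 4 + (∫⁻ x, ‖ExV (bj j) x‖ₑ) ^ 4)

lemma DD_ne : DD n ≠ ⊤ := by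
  unfold DD
  refine ENNReal.sum_ne_top.2 fun j _ => ?_
  exact ENNReal.add_ne_top.2
    ⟨ENNReal.pow_ne_top (ExV_integrable (contDiff_aj j) (compact_aj j)).2.ne,
      ENNReal.pow_ne_top (ExV_integrable (contDiff_bj j) (compact_bj j)).2.ne⟩

/-- **(R4)** -/
theorem s_r4 (n : ℕ) (hsm : S_sm n) : S_r4 n := by
  intro hn ε hε
  obtain ⟨M₀, hM₀⟩ := hsm hn ε hε
  refine ⟨M₀, fun M hM => ?_⟩
  obtain ⟨C, hC0, hC⟩ := hM₀ M hM
  refine ⟨(n : ℝ) ^ 3 * C * (DD n).toReal + 1, by positivity, ?_⟩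
  intro R hR F hFm hF _
  have hR0 : 0 < R := by linarith
  have hy : 0 < R⁻¹ := inv_pos.2 hR0
  have hGn : ∀ j, NiceV (Gj R F j) ∧ ∀ ξ, Gj R F j ξ ≠ 0 → ∀ i, |ξ i| ≤ 4 * R := fun j =>
    niceV_of (contDiff_aj j) (fun _ h => aj_ne h) hR0 hF 1
  have hHn : ∀ j, NiceV (Hj R F j) := fun j =>
    (niceV_of (contDiff_bj j) (fun _ h => bj_ne h) hR0 hF _).1
  have hGi : ∀ j, Integrable (Gj R F j) := fun j =>
    integrable_pc (contDiff_aj j) (fun _ h => aj_ne h) hR0 hF 1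
  have hpc : ∀ j, ∫⁻ g in box n, ∫⁻ w : ℝ, ∫⁻ x : Fin n → ℝ,
      ‖∫ u : Fin n → ℝ, KM M n R⁻¹ w g (x - u) * ExV (Gj R F j) u‖ₑ ^ 4 ≤
      ENNReal.ofReal (C * R ^ (4 * M + ε)) *
        (((∫⁻ x, ‖ExV (aj j) x‖ₑ) ^ 4 + (∫⁻ x, ‖ExV (bj j) x‖ₑ) ^ 4) * ∫⁻ u, ‖F u‖ₑ ^ 4) := by
    intro j
    refine (hC j R hR (Gj R F j) (Hj R F j) (hGn j).1 (hHn j) (Gj_Hj R F j) (hGn j).2).trans ?_
    refine mul_le_mul' le_rfl ?_
    rw [add_mul]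
    exact add_le_add (ExV_Gj hR0 hFm hF j) (ExV_Hj hR0 hFm hF j)
  have h1 := asm hn M hy hGi (Psi R F) (Psi_eq hGi)
  simp only [ENNReal.rpow_ofNat]
  refine h1.trans ?_
  calc (n : ℝ≥0∞) ^ 3 * ∑ j, ∫⁻ g in box n, ∫⁻ w : ℝ, ∫⁻ x : Fin n → ℝ,
        ‖∫ u : Fin n → ℝ, KM M n R⁻¹ w g (x - u) * ExV (Gj R F j) u‖ₑ ^ 4
      ≤ (n : ℝ≥0∞) ^ 3 * ∑ j, ENNReal.ofReal (C * R ^ (4 * M + ε)) *
        (((∫⁻ x, ‖ExV (aj j) x‖ₑ) ^ 4 + (∫⁻ x, ‖ExV (bj j) x‖ₑ) ^ 4) * ∫⁻ u, ‖F u‖ₑ ^ 4) :=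
        mul_le_mul' le_rfl (Finset.sum_le_sum fun j _ => hpc j)
    _ = (n : ℝ≥0∞) ^ 3 * (ENNReal.ofReal (C * R ^ (4 * M + ε)) * (DD n * ∫⁻ u, ‖F u‖ₑ ^ 4)) := by
        unfold DD
        rw [← Finset.mul_sum, ← Finset.sum_mul]
    _ = ((n : ℝ≥0∞) ^ 3 * ENNReal.ofReal (C * R ^ (4 * M + ε)) * DD n) * ∫⁻ u, ‖F u‖ₑ ^ 4 := by
        ring
    _ ≤ _ := by
        refine mul_le_mul' ?_ le_rfl
        have hD0 : 0 ≤ (DD n).toReal := ENNReal.toReal_nonneg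
        have h3 : 0 < R ^ (4 * M + ε) := Real.rpow_pos_of_pos hR0 _
        have h2 : (n : ℝ≥0∞) ^ 3 * ENNReal.ofReal (C * R ^ (4 * M + ε)) * DD n =
            ENNReal.ofReal ((n : ℝ) ^ 3 * (C * R ^ (4 * M + ε)) * (DD n).toReal) := by
          rw [ENNReal.ofReal_mul (show (0 : ℝ) ≤ (n : ℝ) ^ 3 * (C * R ^ (4 * M + ε)) by positivity),
            ENNReal.ofReal_mul (show (0 : ℝ) ≤ (n : ℝ) ^ 3 by positivity),
            ENNReal.ofReal_toReal DD_ne, ENNReal.ofReal_pow (Nat.cast_nonneg n),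
            ENNReal.ofReal_natCast]
        rw [h2]
        refine ENNReal.ofReal_le_ofReal ?_
        rw [show (M : ℝ) * 4 + ε = 4 * M + ε by ring]
        nlinarith

end Pool.Agent.T9h8.LG
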