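import Pool.Agent.T9h44.LG.Spec4
import Pool.Agent.T9h8.LG.R4

/-!
# (R4I) the estimate of a shell at the exponent 4, the mean over the variables of `I` (helper8)
-/

set_option autoImplicit false

namespace Pool.Agent.T9h8.LG

open MeasureTheory Real Pool.Agent.T9h44.LG Pool.Agent.T9h44.LS4 Pool.Agent.T9h31.LG
open Pool.Agent.T9h44.LS5
open scoped ENNReal ContDiff

variable {n : ℕ}

lemma mix_box {I : Finset (Fin n)} {g₀ g : Fin n → ℝ} (h0 : g₀ ∈ box n) (h : g ∈ box n) :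
    mix I g₀ g ∈ box n := by
  intro i
  unfold mix
  split_ifs
  · exact h i
  · exact h0 i

lemma meas_mix (I : Finset (Fin n)) (g₀ : Fin n → ℝ) : Measurable (mix I g₀) := by
  unfold mix
  refine measurable_pi_lambda _ fun i => ?_
  split_ifs
  · exact measurable_pi_apply i
  · exact measurable_const

lemma meas_WI (M : ℕ) (y : ℝ) {G : (Fin n → ℝ) → ℂ} (hG : Integrable G) (I : Finset (Fin n))
    (g₀ : Fin n → ℝ) : Measurable fun p : ((Fin n → ℝ) × ℝ) × (Fin n → ℝ) =>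
      W M y G (mix I g₀ p.1.1) p.1.2 p.2 := by
  have h : Measurable fun p : ((Fin n → ℝ) × ℝ) × (Fin n → ℝ) =>
      ((mix I g₀ p.1.1, p.1.2), p.2) :=
    (((meas_mix I g₀).comp (measurable_fst.comp measurable_fst)).prodMk
      (measurable_snd.comp measurable_fst)).prodMk measurable_snd
  exact Measurable.comp (g := fun p : ((Fin n → ℝ) × ℝ) × (Fin n → ℝ) => W M y G p.1.1 p.1.2 p.2)
    (f := fun p : ((Fin n → ℝ) × ℝ) × (Fin n → ℝ) => ((mix I g₀ p.1.1, p.1.2), p.2))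
    (meas_W M y hG) h

/-- the sum of the pieces -/
lemma asmI (hn : 1 ≤ n) (M : ℕ) {y : ℝ} (hy : 0 < y) {G : Fin n → (Fin n → ℝ) → ℂ}
    (hG : ∀ j, Integrable (G j)) (P : (Fin n → ℝ) → ℂ) (hP : ∀ u, P u = ∑ j, ExV (G j) u)
    (I : Finset (Fin n)) {g₀ : Fin n → ℝ} (h0 : g₀ ∈ box n) :
    ∫⁻ g in box n, ∫⁻ t in Set.Icc (1 : ℝ) 2, ∫⁻ x : Fin n → ℝ,
        ‖∫ u : Fin n → ℝ, KM M n y (t ^ 2 - y ^ 2 / t ^ 2) (mix I g₀ g) (x - u) * P u‖ₑ ^ 4 ≤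
      (n : ℝ≥0∞) ^ 3 * ∑ j, ∫⁻ g in box n, ∫⁻ w : ℝ, ∫⁻ x : Fin n → ℝ,
        ‖∫ u : Fin n → ℝ, KM M n y w (mix I g₀ g) (x - u) * ExV (G j) u‖ₑ ^ 4 := by
  have hV : ∀ g ∈ box n, ∀ (w : ℝ) (x : Fin n → ℝ),
      ∫ u : Fin n → ℝ, KM M n y w g (x - u) * P u =
        ∑ j, ∫ u : Fin n → ℝ, KM M n y w g (x - u) * ExV (G j) u := by
    intro g hg w x
    rw [← integral_finsetSum _ fun j _ => integrable_conv hn M hy w hg (hG j) x]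
    refine integral_congr_ae (Filter.Eventually.of_forall fun u => ?_)
    simp only
    rw [hP, Finset.mul_sum]
  calc ∫⁻ g in box n, ∫⁻ t in Set.Icc (1 : ℝ) 2, ∫⁻ x : Fin n → ℝ,
        ‖∫ u : Fin n → ℝ, KM M n y (t ^ 2 - y ^ 2 / t ^ 2) (mix I g₀ g) (x - u) * P u‖ₑ ^ 4
      ≤ ∫⁻ g in box n, ∫⁻ t in Set.Icc (1 : ℝ) 2, ∫⁻ x : Fin n → ℝ,
          (n : ℝ≥0∞) ^ 3 * ∑ j, W M y (G j) (mix I g₀ g) t x := by
        refine setLIntegral_mono' meas_box fun g hg => ?_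
        refine lintegral_mono fun t => lintegral_mono fun x => ?_
        rw [hV _ (mix_box h0 hg)]
        exact (pow_le_pow_left₀ zero_le (enorm_sum_le _ _) 4).trans (pow4_sum _)
    _ = (n : ℝ≥0∞) ^ 3 * ∑ j, ∫⁻ g in box n, ∫⁻ t in Set.Icc (1 : ℝ) 2, ∫⁻ x : Fin n → ℝ,
          W M y (G j) (mix I g₀ g) t x :=
        sum_gen _ _ _ (fun j g t x => W M y (G j) (mix I g₀ g) t x)
          (fun j => meas_WI M y (hG j) I g₀) _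
          (ENNReal.pow_ne_top (ENNReal.natCast_ne_top n))
    _ ≤ _ := by
        refine mul_le_mul' le_rfl (Finset.sum_le_sum fun j _ => ?_)
        refine lintegral_mono fun g => ?_
        exact sub_w (fun w => ∫⁻ x : Fin n → ℝ,
          ‖∫ u : Fin n → ℝ, KM M n y w (mix I g₀ g) (x - u) * ExV (G j) u‖ₑ ^ 4) y

/-- **(R4I)** -/
theorem s_r4I (n : ℕ) (hsm : S_smI n) : S_r4I n := by
  intro hn ε hε
  obtain ⟨M₀, hM₀⟩ := hsm hn ε hε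
  refine ⟨M₀, fun M hM I => ?_⟩
  obtain ⟨C, hC0, hC⟩ := hM₀ M hM
  refine ⟨(n : ℝ) ^ 3 * C * (DD n).toReal + 1, by positivity, ?_⟩
  intro g₀ hg₀ R hR F hFm hF _
  have hR0 : 0 < R := by linarith
  have hy : 0 < R⁻¹ := inv_pos.2 hR0
  have hGn : ∀ j, NiceV (Gj R F j) ∧ ∀ ξ, Gj R F j ξ ≠ 0 → ∀ i, |ξ i| ≤ 4 * R := fun j =>
    niceV_of (contDiff_aj j) (fun _ h => aj_ne h) hR0 hF 1
  have hHn : ∀ j, NiceV (Hj R F j) := fun j =>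
    (niceV_of (contDiff_bj j) (fun _ h => bj_ne h) hR0 hF _).1
  have hGi : ∀ j, Integrable (Gj R F j) := fun j =>
    integrable_pc (contDiff_aj j) (fun _ h => aj_ne h) hR0 hF 1
  set e : ℝ := 4 * M + (ε + ((n : ℝ) - I.card)) with he
  have hpc : ∀ j, ∫⁻ g in box n, ∫⁻ w : ℝ, ∫⁻ x : Fin n → ℝ,
      ‖∫ u : Fin n → ℝ, KM M n R⁻¹ w (mix I g₀ g) (x - u) * ExV (Gj R F j) u‖ₑ ^ 4 ≤
      ENNReal.ofReal (C * R ^ e) *
        (((∫⁻ x, ‖ExV (aj j) x‖ₑ) ^ 4 + (∫⁻ x, ‖ExV (bj j) x‖ₑ) ^ 4) * ∫⁻ u, ‖F u‖ₑ ^ 4) := by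
    intro j
    refine (hC I j g₀ hg₀ R hR (Gj R F j) (Hj R F j) (hGn j).1 (hHn j) (Gj_Hj R F j)
      (hGn j).2).trans ?_
    refine mul_le_mul' le_rfl ?_
    rw [add_mul]
    exact add_le_add (ExV_Gj hR0 hFm hF j) (ExV_Hj hR0 hFm hF j)
  have h1 := asmI hn M hy hGi (Psi R F) (Psi_eq hGi) I hg₀
  simp only [ENNReal.rpow_ofNat]
  refine h1.trans ?_
  calc (n : ℝ≥0∞) ^ 3 * ∑ j, ∫⁻ g in box n, ∫⁻ w : ℝ, ∫⁻ x : Fin n → ℝ,
        ‖∫ u : Fin n → ℝ, KM M n R⁻¹ w (mix I g₀ g) (x - u) * ExV (Gj R F j) u‖ₑ ^ 4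
      ≤ (n : ℝ≥0∞) ^ 3 * ∑ j, ENNReal.ofReal (C * R ^ e) *
        (((∫⁻ x, ‖ExV (aj j) x‖ₑ) ^ 4 + (∫⁻ x, ‖ExV (bj j) x‖ₑ) ^ 4) * ∫⁻ u, ‖F u‖ₑ ^ 4) :=
        mul_le_mul' le_rfl (Finset.sum_le_sum fun j _ => hpc j)
    _ = (n : ℝ≥0∞) ^ 3 * (ENNReal.ofReal (C * R ^ e) * (DD n * ∫⁻ u, ‖F u‖ₑ ^ 4)) := by
        unfold DD
        rw [← Finset.mul_sum, ← Finset.sum_mul]
    _ = ((n : ℝ≥0∞) ^ 3 * ENNReal.ofReal (C * R ^ e) * DD n) * ∫⁻ u, ‖F u‖ₑ ^ 4 := by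
        ring
    _ ≤ _ := by
        refine mul_le_mul' ?_ le_rfl
        have hD0 : 0 ≤ (DD n).toReal := ENNReal.toReal_nonneg
        have h3 : 0 < R ^ e := Real.rpow_pos_of_pos hR0 _
        have h2 : (n : ℝ≥0∞) ^ 3 * ENNReal.ofReal (C * R ^ e) * DD n =
            ENNReal.ofReal ((n : ℝ) ^ 3 * (C * R ^ e) * (DD n).toReal) := by
          rw [ENNReal.ofReal_mul (show (0 : ℝ) ≤ (n : ℝ) ^ 3 * (C * R ^ e) by positivity),
            ENNReal.ofReal_mul (show (0 : ℝ) ≤ (n : ℝ) ^ 3 by positivity),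
            ENNReal.ofReal_toReal DD_ne, ENNReal.ofReal_pow (Nat.cast_nonneg n),
            ENNReal.ofReal_natCast]
        rw [h2]
        refine ENNReal.ofReal_le_ofReal ?_
        rw [show (M : ℝ) * 4 + (ε + ((n : ℝ) - I.card)) = e by rw [he]; ring]
        nlinarith

end Pool.Agent.T9h8.LG
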