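import Pool.Agent.T9h44.LG.Spec5
import Pool.Agent.T9h8.LG.R4I

/-!
# (R4J) the estimate of a shell at the exponent 4, gain `min |I| (n - 1)` (helper8)
-/

set_option autoImplicit false

namespace Pool.Agent.T9h8.LG

open MeasureTheory Real Pool.Agent.T9h44.LG Pool.Agent.T9h44.LS4 Pool.Agent.T9h31.LG
open Pool.Agent.T9h44.LS5
open scoped ENNReal ContDiff

variable {n : ℕ}

/-- **(R4J)** -/
theorem s_r4J (n : ℕ) (hsm : S_smJ n) : S_r4J n := by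
  intro hn ε hε
  obtain ⟨M₀, hM₀⟩ := hsm hn ε hε
  refine ⟨M₀, fun M hM I => ?_⟩
  obtain ⟨C, hC0, hC⟩ := hM₀ M hM
  refine ⟨(n : ℝ) ^ 3 * C * (DD n).toReal + 1, by positivity, ?_⟩
  intro g₀ hg₀ R hR F hFm hF _
  have hR0 : 0 < R := by linarith
  have hy : 0 < R⁻¹ := inv_pos.2 hR0
  have hGn : ∀ j, NiceV (Gj R F j) ∧ ∀ ξ, Gj R F j ξ ≠ 0 → ∀ i, |ξ i| ≤ 4 * R := fun j =>
    niceV_of (contDiff_aj j) (fun _ h => aj_ne h) hR0 hF 1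
  have hHn : ∀ j, NiceV (Hj R F j) := fun j =>
    (niceV_of (contDiff_bj j) (fun _ h => bj_ne h) hR0 hF _).1
  have hGi : ∀ j, Integrable (Gj R F j) := fun j =>
    integrable_pc (contDiff_aj j) (fun _ h => aj_ne h) hR0 hF 1
  set e : ℝ := 4 * M + (ε + ((n : ℝ) - 1 - (min I.card (n - 1) : ℕ))) with he
  have hpc : ∀ j, ∫⁻ g in box n, ∫⁻ w : ℝ, ∫⁻ x : Fin n → ℝ,
      ‖∫ u : Fin n → ℝ, KM M n R⁻¹ w (mix I g₀ g) (x - u) * ExV (Gj R F j) u‖ₑ ^ 4 ≤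
      ENNReal.ofReal (C * R ^ e) *
        (((∫⁻ x, ‖ExV (aj j) x‖ₑ) ^ 4 + (∫⁻ x, ‖ExV (bj j) x‖ₑ) ^ 4) * ∫⁻ u, ‖F u‖ₑ ^ 4) := by
    intro j
    refine (hC I j g₀ hg₀ R hR (Gj R F j) (Hj R F j) (hGn j).1 (hHn j) (Gj_Hj R F j)
      (hGn j).2).trans ?_
    refine mul_le_mul' le_rfl ?_
    rw [add_mul]
    exact add_le_add (ExV_Gj hR0 hFm hF j) (ExV_Hj hR0 hFm hF j)
  have h1 := asmI hn M hy hGi (Psi R F) (Psi_eq hGi) I hg₀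
  simp only [ENNReal.rpow_ofNat]
  refine h1.trans ?_
  calc (n : ℝ≥0∞) ^ 3 * ∑ j, ∫⁻ g in box n, ∫⁻ w : ℝ, ∫⁻ x : Fin n → ℝ,
        ‖∫ u : Fin n → ℝ, KM M n R⁻¹ w (mix I g₀ g) (x - u) * ExV (Gj R F j) u‖ₑ ^ 4
      ≤ (n : ℝ≥0∞) ^ 3 * ∑ j, ENNReal.ofReal (C * R ^ e) *
        (((∫⁻ x, ‖ExV (aj j) x‖ₑ) ^ 4 + (∫⁻ x, ‖ExV (bj j) x‖ₑ) ^ 4) * ∫⁻ u, ‖F u‖ₑ ^ 4) :=
        mul_le_mul' le_rfl (Finset.sum_le_sum fun j _ => hpc j)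
    _ = (n : ℝ≥0∞) ^ 3 * (ENNReal.ofReal (C * R ^ e) * (DD n * ∫⁻ u, ‖F u‖ₑ ^ 4)) := by
        unfold DD
        rw [← Finset.mul_sum, ← Finset.sum_mul]
    _ = ((n : ℝ≥0∞) ^ 3 * ENNReal.ofReal (C * R ^ e) * DD n) * ∫⁻ u, ‖F u‖ₑ ^ 4 := by
        ring
    _ ≤ _ := by
        refine mul_le_mul' ?_ le_rfl
        have hD0 : 0 ≤ (DD n).toReal := ENNReal.toReal_nonneg
        have h3 : 0 < R ^ e := Real.rpow_pos_of_pos hR0 _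
        have h2 : (n : ℝ≥0∞) ^ 3 * ENNReal.ofReal (C * R ^ e) * DD n =
            ENNReal.ofReal ((n : ℝ) ^ 3 * (C * R ^ e) * (DD n).toReal) := by
          rw [ENNReal.ofReal_mul (show (0 : ℝ) ≤ (n : ℝ) ^ 3 * (C * R ^ e) by positivity),
            ENNReal.ofReal_mul (show (0 : ℝ) ≤ (n : ℝ) ^ 3 by positivity),
            ENNReal.ofReal_toReal DD_ne, ENNReal.ofReal_pow (Nat.cast_nonneg n),
            ENNReal.ofReal_natCast]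
        rw [h2]
        refine ENNReal.ofReal_le_ofReal ?_
        rw [show (M : ℝ) * 4 + (ε + ((n : ℝ) - 1 - (min I.card (n - 1) : ℕ))) = e by rw [he]; ring]
        nlinarith

end Pool.Agent.T9h8.LG
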