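import Pool.Agent.T9h44.LG.Spec2
import Pool.Agent.T9h44.LS4.R1
import Pool.Agent.T9h31.LG.Planch

/-!
# Fourier multipliers with smooth compactly supported symbols in dimension n (helper8)
-/

set_option autoImplicit false

namespace Pool.Agent.T9h8.LG

open MeasureTheory Real Pool.Agent.T9h44.LG Pool.Agent.T9h44.LS4 Pool.Agent.T9h31.LG
open scoped ENNReal FourierTransform ContDiff

variable {n : ℕ}

/-- the Fourier transform -/
noncomputable def Fh (F : (Fin n → ℝ) → ℂ) (ξ : Fin n → ℝ) : ℂ :=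
  ∫ v : Fin n → ℝ, ee (-∑ i, v i * ξ i) * F v

lemma continuous_Fh {F : (Fin n → ℝ) → ℂ} (hF : Integrable F) : Continuous (Fh F) := by
  unfold Fh
  refine continuous_of_dominated (bound := fun v => ‖F v‖) (fun y => ?_)
    (fun y => Filter.Eventually.of_forall fun z => ?_) hF.norm
    (Filter.Eventually.of_forall fun z => ?_)
  · refine AEStronglyMeasurable.mul ?_ hF.aestronglyMeasurable
    exact (continuous_ee.comp (by fun_prop)).aestronglyMeasurable
  · rw [norm_mul, norm_ee, one_mul]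
  · exact (continuous_ee.comp (by fun_prop)).mul continuous_const

lemma norm_Fh_le (F : (Fin n → ℝ) → ℂ) (ξ : Fin n → ℝ) : ‖Fh F ξ‖ ≤ ∫ v, ‖F v‖ := by
  unfold Fh
  refine (norm_integral_le_integral_norm _).trans (le_of_eq ?_)
  refine integral_congr_ae (Filter.Eventually.of_forall fun x => ?_)
  simp only [norm_mul, norm_ee, one_mul]

lemma continuous_ExV {G : (Fin n → ℝ) → ℂ} (hG : Integrable G) : Continuous (ExV G) := by
  unfold ExV
  refine continuous_of_dominated (bound := fun v => ‖G v‖) (fun y => ?_)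
    (fun y => Filter.Eventually.of_forall fun z => ?_) hG.norm
    (Filter.Eventually.of_forall fun z => ?_)
  · refine AEStronglyMeasurable.mul ?_ hG.aestronglyMeasurable
    exact (continuous_ee.comp (by fun_prop)).aestronglyMeasurable
  · rw [norm_mul, norm_ee, one_mul]
  · exact (continuous_ee.comp (by fun_prop)).mul continuous_const

lemma norm_ExV_le (G : (Fin n → ℝ) → ℂ) (x : Fin n → ℝ) : ‖ExV G x‖ ≤ ∫ v, ‖G v‖ := by
  unfold ExV
  refine (norm_integral_le_integral_norm _).trans (le_of_eq ?_)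
  refine integral_congr_ae (Filter.Eventually.of_forall fun x => ?_)
  simp only [norm_mul, norm_ee, one_mul]

/-- the kernel of a smooth compactly supported symbol is integrable -/
theorem ExV_integrable {a : (Fin n → ℝ) → ℂ} (h1 : ContDiff ℝ ∞ a) (h2 : HasCompactSupport a) :
    Integrable (ExV a) := by
  have mp := EuclideanSpace.volume_preserving_symm_measurableEquiv_toLp (Fin n)
  set T : EuclideanSpace ℝ (Fin n) ≃ᵐ (Fin n → ℝ) :=
    (MeasurableEquiv.toLp 2 (Fin n → ℝ)).symm with hT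
  have hTv : ∀ v, T v = v.ofLp := fun v => rfl
  set L : EuclideanSpace ℝ (Fin n) ≃L[ℝ] (Fin n → ℝ) :=
    PiLp.continuousLinearEquiv 2 ℝ (fun _ : Fin n => ℝ) with hL
  have hLv : ∀ v, L v = T v := fun v => rfl
  set g : EuclideanSpace ℝ (Fin n) → ℂ := fun v => a (L v) with hg
  have hg1 : ContDiff ℝ ∞ g := h1.comp L.contDiff
  have hg2 : HasCompactSupport g := h2.comp_homeomorph L.toHomeomorph
  set S : SchwartzMap (EuclideanSpace ℝ (Fin n)) ℂ := hg2.toSchwartzMap hg1 with hS
  have hSg : ∀ v, S v = g v := fun v => rfl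
  have h3 : Integrable (𝓕⁻ S : SchwartzMap (EuclideanSpace ℝ (Fin n)) ℂ) := SchwartzMap.integrable _
  have h4 : ∀ ξ, (𝓕⁻ S : SchwartzMap (EuclideanSpace ℝ (Fin n)) ℂ) ξ = ExV a (T ξ) := by
    intro ξ
    rw [SchwartzMap.fourierInv_coe, Real.fourierInv_eq]
    unfold ExV
    rw [← mp.integral_comp T.measurableEmbedding]
    refine integral_congr_ae (Filter.Eventually.of_forall fun v => ?_)
    simp only [hSg, hg, hLv]
    rw [Circle.smul_def, smul_eq_mul]
    congr 1
  have h5 : Integrable (fun ξ => ExV a (T ξ)) :=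
    h3.congr (Filter.Eventually.of_forall h4)
  exact (mp.integrable_comp_emb T.measurableEmbedding).1 h5

/-- scaling of the kernel -/
lemma ExV_scale (a : (Fin n → ℝ) → ℂ) {R : ℝ} (hR : 0 < R) (x : Fin n → ℝ) :
    ExV (fun ξ => a (R⁻¹ • ξ)) x = ((R ^ n : ℝ) : ℂ) * ExV a (R • x) := by
  unfold ExV
  have h := Measure.integral_comp_inv_smul (volume : Measure (Fin n → ℝ))
    (fun η : Fin n → ℝ => ee (∑ i, (R • x) i * η i) * a η) R
  rw [Module.finrank_fin_fun, abs_of_pos (by positivity)] at h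
  rw [Complex.real_smul] at h
  rw [← h]
  refine integral_congr_ae (Filter.Eventually.of_forall fun ξ => ?_)
  have e : ∀ i, R * x i * (R⁻¹ * ξ i) = x i * ξ i := fun i => by field_simp
  simp only [Pi.smul_apply, smul_eq_mul, e]

theorem ExV_scale_integrable {a : (Fin n → ℝ) → ℂ} (h1 : ContDiff ℝ ∞ a)
    (h2 : HasCompactSupport a) {R : ℝ} (hR : 0 < R) :
    Integrable (ExV fun ξ => a (R⁻¹ • ξ)) := by
  have h3 : (ExV fun ξ => a (R⁻¹ • ξ)) = fun x => ((R ^ n : ℝ) : ℂ) * ExV a (R • x) :=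
    funext fun x => ExV_scale a hR x
  rw [h3]
  exact ((ExV_integrable h1 h2).comp_smul hR.ne').const_mul _

theorem L1_scale {a : (Fin n → ℝ) → ℂ} (h1 : ContDiff ℝ ∞ a) (h2 : HasCompactSupport a) {R : ℝ}
    (hR : 0 < R) :
    ∫⁻ x, ‖ExV (fun ξ => a (R⁻¹ • ξ)) x‖ₑ = ∫⁻ x, ‖ExV a x‖ₑ := by
  rw [← ofReal_integral_norm_eq_lintegral_enorm (ExV_scale_integrable h1 h2 hR),
    ← ofReal_integral_norm_eq_lintegral_enorm (ExV_integrable h1 h2)]
  congr 1
  have h3 : ∀ x, ‖ExV (fun ξ => a (R⁻¹ • ξ)) x‖ = R ^ n * ‖ExV a (R • x)‖ := by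
    intro x
    rw [ExV_scale a hR x, norm_mul, Complex.norm_real, Real.norm_of_nonneg (by positivity)]
  simp only [h3]
  rw [integral_const_mul, Measure.integral_comp_smul (volume : Measure (Fin n → ℝ))
    (fun x => ‖ExV a x‖) R, Module.finrank_fin_fun, abs_of_pos (by positivity), smul_eq_mul,
    ← mul_assoc, mul_inv_cancel₀ (by positivity), one_mul]

/-- a multiplier is a convolution -/
theorem ExV_mul {m F : (Fin n → ℝ) → ℂ} (hm : Integrable m) (hF : Integrable F) (x : Fin n → ℝ) :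
    ExV (fun ξ => m ξ * Fh F ξ) x = ∫ u, ExV m (x - u) * F u := by
  unfold ExV Fh
  have h1 : Integrable (fun p : (Fin n → ℝ) × (Fin n → ℝ) =>
      ee (∑ i, (x i - p.2 i) * p.1 i) * (m p.1 * F p.2)) := by
    have h2 := hm.mul_prod hF
    refine (h2.norm).mono' ?_ ?_
    · refine AEStronglyMeasurable.mul ?_ h2.aestronglyMeasurable
      exact (continuous_ee.comp (by fun_prop)).aestronglyMeasurable
    · refine Filter.Eventually.of_forall fun p => ?_
      simp only [norm_mul, norm_ee, one_mul]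
      exact le_rfl
  have h3 : (∫ ξ : Fin n → ℝ, ee (∑ i, x i * ξ i) * (m ξ * ∫ v, ee (-∑ i, v i * ξ i) * F v)) =
      ∫ ξ : Fin n → ℝ, ∫ v : Fin n → ℝ, ee (∑ i, (x i - v i) * ξ i) * (m ξ * F v) := by
    refine integral_congr_ae (Filter.Eventually.of_forall fun ξ => ?_)
    simp only
    rw [← integral_const_mul, ← integral_const_mul]
    refine integral_congr_ae (Filter.Eventually.of_forall fun v => ?_)
    simp only
    have h4 : ee (∑ i, (x i - v i) * ξ i) = ee (∑ i, x i * ξ i) * ee (-∑ i, v i * ξ i) := by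
      rw [← ee_add]
      congr 1
      rw [← sub_eq_add_neg, ← Finset.sum_sub_distrib]
      exact Finset.sum_congr rfl fun i _ => by ring
    rw [h4]
    ring
  rw [h3, integral_integral_swap h1]
  refine integral_congr_ae (Filter.Eventually.of_forall fun v => ?_)
  simp only
  rw [← integral_mul_const]
  refine integral_congr_ae (Filter.Eventually.of_forall fun ξ => ?_)
  simp only [Pi.sub_apply]
  ring

/-- the multiplier on `L⁴`, uniformly in the scale -/
theorem mult4 {a : (Fin n → ℝ) → ℂ} (h1 : ContDiff ℝ ∞ a) (h2 : HasCompactSupport a) {R : ℝ}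
    (hR : 0 < R) {F : (Fin n → ℝ) → ℂ} (hFm : Measurable F) (hF : Integrable F) :
    ∫⁻ x, ‖ExV (fun ξ => a (R⁻¹ • ξ) * Fh F ξ) x‖ₑ ^ 4 ≤
      (∫⁻ x, ‖ExV a x‖ₑ) ^ 4 * ∫⁻ u, ‖F u‖ₑ ^ 4 := by
  have ha : Integrable a := h1.continuous.integrable_of_hasCompactSupport h2
  have haR : Integrable (fun ξ : Fin n → ℝ => a (R⁻¹ • ξ)) := ha.comp_smul (inv_ne_zero hR.ne')
  rw [← L1_scale h1 h2 hR]
  have hc : Continuous (ExV fun ξ => a (R⁻¹ • ξ)) := continuous_ExV haR
  refine le_trans (lintegral_mono fun x => ?_) (young4 (fun z => ‖ExV (fun ξ => a (R⁻¹ • ξ)) z‖ₑ)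
    (fun u => ‖F u‖ₑ) hc.measurable.enorm hFm.enorm)
  refine pow_le_pow_left₀ zero_le ?_ 4
  rw [ExV_mul haR hF x]
  refine (enorm_integral_le_lintegral_enorm _).trans (le_of_eq ?_)
  refine lintegral_congr fun u => ?_
  rw [enorm_mul]

end Pool.Agent.T9h8.LG
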