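import Pool.Agent.T9h8.LG.Mult
import Pool.Agent.T9h41.LG.KMb

/-!
# The decomposition of the shell cutoff (helper8)
-/

set_option autoImplicit false

namespace Pool.Agent.T9h8.LG

open MeasureTheory Real Pool.Agent.T9h44.LG Pool.Agent.T9h44.LS4 Pool.Agent.T9h31.LG
open scoped ENNReal FourierTransform ContDiff

variable {n : ℕ}

/-- `shl = x phi(x)` with `x = |η|²` -/
noncomputable def phi (x : ℝ) : ℝ :=
  Real.smoothTransition ((x - 1 / 16) * (16 / 3)) * Real.smoothTransition ((16 - x) / 12) / x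

lemma mul_phi (x : ℝ) : x * phi x =
    Real.smoothTransition ((x - 1 / 16) * (16 / 3)) * Real.smoothTransition ((16 - x) / 12) := by
  unfold phi
  by_cases h : x = 0
  · subst h
    rw [Real.smoothTransition.zero_of_nonpos (by norm_num)]
    ring
  · field_simp

lemma contDiff_phi : ContDiff ℝ ∞ phi := by
  rw [contDiff_iff_contDiffAt]
  intro x
  by_cases h : x < 1 / 16
  · have h1 : phi =ᶠ[nhds x] fun _ => 0 := by
      filter_upwards [Iio_mem_nhds h] with y hy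
      unfold phi
      rw [Real.smoothTransition.zero_of_nonpos (by
        have : y < 1 / 16 := hy
        nlinarith)]
      ring
    exact contDiffAt_const.congr_of_eventuallyEq h1
  · have hx : x ≠ 0 := by
      intro h0
      exact h (by rw [h0]; norm_num)
    unfold phi
    have hst := Real.smoothTransition.contDiff (n := (⊤ : ℕ∞))
    have h2 : ContDiff ℝ ∞ fun x : ℝ => Real.smoothTransition ((x - 1 / 16) * (16 / 3)) :=
      hst.comp ((contDiff_id.sub contDiff_const).mul contDiff_const)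
    have h3 : ContDiff ℝ ∞ fun x : ℝ => Real.smoothTransition ((16 - x) / 12) :=
      hst.comp ((contDiff_const.sub contDiff_id).div_const _)
    exact (h2.mul h3).contDiffAt.div contDiffAt_id hx

lemma phi_ne {x : ℝ} (h : phi x ≠ 0) : x < 16 := by
  by_contra h1
  refine h ?_
  unfold phi
  rw [Real.smoothTransition.zero_of_nonpos (x := (16 - x) / 12) (by
    have : 16 ≤ x := not_lt.1 h1
    linarith)]
  ring

/-- the symbols -/
noncomputable def aj (j : Fin n) (η : Fin n → ℝ) : ℂ := ((η j ^ 2 * phi (∑ i, η i ^ 2) : ℝ) : ℂ)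

/-- the symbols -/
noncomputable def bj (j : Fin n) (η : Fin n → ℝ) : ℂ :=
  (2 * π * Complex.I)⁻¹ * ((η j * phi (∑ i, η i ^ 2) : ℝ) : ℂ)

lemma tpi : (2 * π * Complex.I : ℂ) ≠ 0 := by
  simp [Real.pi_ne_zero]

lemma aj_bj (j : Fin n) (η : Fin n → ℝ) : aj j η = 2 * π * Complex.I * η j * bj j η := by
  unfold aj bj
  have := tpi
  rw [show (2 * (π : ℂ) * Complex.I * (η j : ℂ) * ((2 * π * Complex.I)⁻¹ *
    ((η j * phi (∑ i, η i ^ 2) : ℝ) : ℂ))) = (2 * (π : ℂ) * Complex.I) * (2 * π * Complex.I)⁻¹ *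
    ((η j : ℂ) * ((η j * phi (∑ i, η i ^ 2) : ℝ) : ℂ)) by ring, mul_inv_cancel₀ this]
  push_cast
  ring

lemma sum_aj (η : Fin n → ℝ) : ∑ j, aj j η = ((shl η : ℝ) : ℂ) := by
  unfold aj shl
  rw [← Complex.ofReal_sum, ← Finset.sum_mul, mul_phi]

lemma contDiff_aj (j : Fin n) : ContDiff ℝ ∞ (aj (n := n) j) := by
  unfold aj
  refine Complex.ofRealCLM.contDiff.comp ?_
  refine ContDiff.mul (by fun_prop) (contDiff_phi.comp (by fun_prop))

lemma contDiff_bj (j : Fin n) : ContDiff ℝ ∞ (bj (n := n) j) := by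
  unfold bj
  refine contDiff_const.mul (Complex.ofRealCLM.contDiff.comp ?_)
  refine ContDiff.mul (by fun_prop) (contDiff_phi.comp (by fun_prop))

lemma small {η : Fin n → ℝ} (h : phi (∑ i, η i ^ 2) ≠ 0) (i : Fin n) : |η i| ≤ 4 := by
  have h1 := phi_ne h
  have h2 : η i ^ 2 ≤ ∑ i, η i ^ 2 :=
    Finset.single_le_sum (f := fun i => η i ^ 2) (fun j _ => sq_nonneg _) (Finset.mem_univ i)
  exact abs_le_of_sq_le_sq (by linarith) (by norm_num)

lemma aj_ne {j : Fin n} {η : Fin n → ℝ} (h : aj j η ≠ 0) (i : Fin n) : |η i| ≤ 4 := by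
  refine small (fun h1 => h ?_) i
  unfold aj
  rw [h1, mul_zero, Complex.ofReal_zero]

lemma bj_ne {j : Fin n} {η : Fin n → ℝ} (h : bj j η ≠ 0) (i : Fin n) : |η i| ≤ 4 := by
  refine small (fun h1 => h ?_) i
  unfold bj
  rw [h1, mul_zero, Complex.ofReal_zero, mul_zero]

lemma compact_of {a : (Fin n → ℝ) → ℂ} (h : ∀ η, a η ≠ 0 → ∀ i, |η i| ≤ 4) :
    HasCompactSupport a := by
  refine HasCompactSupport.of_support_subset_isCompact
    (K := Set.pi Set.univ fun _ => Set.Icc (-4 : ℝ) 4) (isCompact_univ_pi fun _ => isCompact_Icc) ?_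
  intro η hη i _
  exact abs_le.1 (h η hη i)

lemma compact_aj (j : Fin n) : HasCompactSupport (aj (n := n) j) := compact_of fun _ h => aj_ne h

lemma compact_bj (j : Fin n) : HasCompactSupport (bj (n := n) j) := compact_of fun _ h => bj_ne h

/-- the class of symbols -/
lemma niceV_of {a : (Fin n → ℝ) → ℂ} (h1 : ContDiff ℝ ∞ a) (h : ∀ η, a η ≠ 0 → ∀ i, |η i| ≤ 4)
    {R : ℝ} (hR : 0 < R) {F : (Fin n → ℝ) → ℂ} (hF : Integrable F) (c : ℂ) :
    NiceV (fun ξ => c * (a (R⁻¹ • ξ) * Fh F ξ)) ∧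
      ∀ ξ, c * (a (R⁻¹ • ξ) * Fh F ξ) ≠ 0 → ∀ i, |ξ i| ≤ 4 * R := by
  have h2 : ∀ ξ, c * (a (R⁻¹ • ξ) * Fh F ξ) ≠ 0 → ∀ i, |ξ i| ≤ 4 * R := by
    intro ξ hξ i
    have h3 := h (R⁻¹ • ξ) (left_ne_zero_of_mul (right_ne_zero_of_mul hξ)) i
    rw [Pi.smul_apply, smul_eq_mul, abs_mul, abs_of_pos (inv_pos.2 hR),
      inv_mul_le_iff₀ hR] at h3
    linarith
  refine ⟨⟨?_, ?_, 4 * R, h2⟩, h2⟩
  · exact (continuous_const.mul ((h1.continuous.comp (by fun_prop)).mul
      (continuous_Fh hF))).measurable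
  · obtain ⟨B, hB⟩ := (compact_of h).exists_bound_of_continuous h1.continuous
    refine ⟨‖c‖ * (B * ∫ v, ‖F v‖), fun ξ => ?_⟩
    rw [norm_mul, norm_mul]
    refine mul_le_mul_of_nonneg_left ?_ (norm_nonneg _)
    exact mul_le_mul (hB _) (norm_Fh_le F ξ) (norm_nonneg _) ((norm_nonneg _).trans (hB 0))

/-- joint measurability of the kernel -/
lemma meas_KM3 (M : ℕ) (y : ℝ) :
    Measurable fun p : ℝ × (Fin n → ℝ) × (Fin n → ℝ) => KM M n y p.1 p.2.1 p.2.2 := by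
  unfold KM
  have hq : Continuous fun p : (ℝ × (Fin n → ℝ) × (Fin n → ℝ)) × ℝ =>
      os p.2 (q p.1.2.1 p.1.2.2 - p.1.1) :=
    continuous_os.comp ((by fun_prop : Continuous fun p : (ℝ × (Fin n → ℝ) × (Fin n → ℝ)) × ℝ =>
      p.2).prodMk ((continuous_q.comp (by fun_prop : Continuous fun p :
      (ℝ × (Fin n → ℝ) × (Fin n → ℝ)) × ℝ => (p.1.2.1, p.1.2.2))).sub (by fun_prop)))
  have hm : Measurable fun p : (ℝ × (Fin n → ℝ) × (Fin n → ℝ)) × ℝ =>
      ((p.2 ^ (((n : ℝ) - 1) / 2 + M) * Real.exp (-(2 * π * p.2 * y)) : ℝ) : ℂ) *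
        os p.2 (q p.1.2.1 p.1.2.2 - p.1.1) :=
    (by fun_prop : Measurable fun p : (ℝ × (Fin n → ℝ) × (Fin n → ℝ)) × ℝ =>
      ((p.2 ^ (((n : ℝ) - 1) / 2 + M) * Real.exp (-(2 * π * p.2 * y)) : ℝ) : ℂ)).mul hq.measurable
  exact (hm.stronglyMeasurable.integral_prod_right'
    (ν := volume.restrict (Set.Ioi (0 : ℝ)))).measurable

/-- the convolution with the kernel, jointly measurable in the metric, the parameter and the
point -/
lemma meas_conv (M : ℕ) (y : ℝ) {Φ : (Fin n → ℝ) → ℂ} (hF : Measurable Φ) :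
    Measurable fun p : (Fin n → ℝ) × ℝ × (Fin n → ℝ) =>
      ∫ u, KM M n y p.2.1 p.1 (p.2.2 - u) * Φ u := by
  have h1 : Measurable fun p : ((Fin n → ℝ) × ℝ × (Fin n → ℝ)) × (Fin n → ℝ) =>
      KM M n y p.1.2.1 p.1.1 (p.1.2.2 - p.2) :=
    Measurable.comp (g := fun p : ℝ × (Fin n → ℝ) × (Fin n → ℝ) => KM M n y p.1 p.2.1 p.2.2)
      (f := fun p : ((Fin n → ℝ) × ℝ × (Fin n → ℝ)) × (Fin n → ℝ) =>
        (p.1.2.1, p.1.1, p.1.2.2 - p.2))
      (meas_KM3 M y) (by fun_prop)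
  exact ((h1.mul (hF.comp measurable_snd)).stronglyMeasurable.integral_prod_right').measurable

end Pool.Agent.T9h8.LG
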